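import Pool.Agent.NTW.StmtsB

/-!
# NTW squad, row HOT: the components outside the hole
-/

set_option autoImplicit false

open Matrix Filter Topology

namespace Pool.Agent.NTW.H63

open Pool.Agent.PFS Pool.Agent.PFJ Pool.Agent.NTS

theorem sum_y {n K : ℕ} {τ : Fin K → Fin K} (hτ : ∀ i, τ (τ i) = i) (x : Fin K → V n) :
    ∑ i, (x i + x (τ i)) = (2 : ℝ) • ∑ i, x i := by
  rw [Finset.sum_add_distrib, two_smul]
  congr 1
  exact Equiv.sum_comp (Function.Involutive.toPerm τ hτ) x

/-- HOT -/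
theorem hot (dcp : DcpStmt) : HotStmt := by
  classical
  intro n C Γ K c τ hD v v' ν M k i0 hHK hole hM
  obtain ⟨v1, v2, -, v4, -, -, -⟩ := dcp n C Γ K c τ hD v hHK.tv
  obtain ⟨w1, w2, -, w4, -, -, -⟩ := dcp n C Γ K c τ hD v' hHK.tv'
  have hP : PCone C := hD.toPCone
  have hcl : ∀ m, v m ∈ closure C := fun m => hHK.tv.pes.1.cl m
  have hr0 : ∀ i, ∃ r : ℝ, 0 ≤ r ∧ (i ≠ k → τ i = i → v' i = r • v i) := by
    intro i
    by_cases h : i ≠ k ∧ τ i = i
    · obtain ⟨r, hr, h1⟩ := hHK.lab i h.1 h.2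
      exact ⟨r, hr.le, fun _ _ => h1⟩
    · exact ⟨0, le_rfl, fun h1 h2 => absurd ⟨h1, h2⟩ h⟩
  choose r hr0 hr using hr0
  have hsum : 0 ≤ ∑ i, r i := Finset.sum_nonneg fun i _ => hr0 i
  have hM0 : 0 < M := by linarith
  refine ⟨2 * M * (1 + ∑ i, r i), by positivity, ?_⟩
  intro t x hN hL l hl1 hl2
  set S : Finset (Fin K) := (Finset.univ.erase k).erase (τ k) with hS
  have hmS : ∀ m, m ≠ k → m ≠ τ k → m ∈ S := fun m h1 h2 =>
    Finset.mem_erase.2 ⟨h2, Finset.mem_erase.2 ⟨h1, Finset.mem_univ m⟩⟩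
  have hxv : xt v t ∈ closure C :=
    hP.cl_sum fun m _ => hP.cl_smul (hcl m) (Real.exp_pos _).le
  have hx : ∑ i, x i ∈ closure C := by
    have h1 := hP.cl_add hN.lo hxv
    rwa [sub_add_cancel] at h1
  have hy : ∀ i, x i + x (τ i) ∈ closure C := w4 x hN.mem hx
  have h2 : (2 : ℝ) • (∑ i, x i) - (x l + x (τ l)) ∈ closure C := by
    rw [← sum_y hD.inv x, ← Finset.add_sum_erase Finset.univ (fun i => x i + x (τ i))
      (Finset.mem_univ l), add_sub_cancel_left]
    exact hP.cl_sum fun m _ => hy m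
  have hSc : ∀ T : Finset (Fin K), ∑ m ∈ T, Real.exp (t m) • v m ∈ closure C := fun T =>
    hP.cl_sum fun m _ => hP.cl_smul (hcl m) (Real.exp_pos _).le
  have hR0 : 0 ≤ 2 * M * (1 + ∑ i, r i) := by positivity
  by_cases hl : τ l = l
  · obtain ⟨b, hb1, hb2, hb3⟩ := hL l hl
    have hb : 0 ≤ b := by
      by_contra h
      push Not at h
      nlinarith [Real.exp_pos (t l)]
    have hlk : l ≠ k := fun h => hole.prk (by rw [← h]; exact hl)
    have hlk' : l ≠ τ k := by
      intro h
      rw [h, hD.inv] at hl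
      exact hole.prk hl.symm
    have e1 : x l + x (τ l) = (2 * b * r l) • v l := by
      rw [hl, hb1, hr l hlk hl, smul_smul, ← two_smul ℝ, smul_smul]
      congr 1
      ring
    rw [e1, ← Finset.add_sum_erase S _ (hmS l hlk hlk')]
    have e2 : (2 * M * (1 + ∑ i, r i)) •
        (Real.exp (t l) • v l + ∑ m ∈ S.erase l, Real.exp (t m) • v m) - (2 * b * r l) • v l =
        (2 * M * (1 + ∑ i, r i) * Real.exp (t l) - 2 * b * r l) • v l +
          (2 * M * (1 + ∑ i, r i)) • ∑ m ∈ S.erase l, Real.exp (t m) • v m := by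
      module
    rw [e2]
    refine hP.cl_add (hP.cl_smul (hcl l) ?_) (hP.cl_smul (hSc _) hR0)
    have h3 : r l ≤ ∑ i, r i := Finset.single_le_sum (fun i _ => hr0 i) (Finset.mem_univ l)
    have h4 : b * r l ≤ M * Real.exp (t l) * ∑ i, r i :=
      mul_le_mul hb3 h3 (hr0 l) (by positivity)
    have h5 : 0 ≤ M * Real.exp (t l) := by positivity
    nlinarith
  · obtain ⟨a, ha1, ha2, ha3, ha4⟩ := hole.full l hl1 hl2 hl
    have hya : x l + x (τ l) ∈ Lf C τ v a := by
      rw [← ha4]
      refine Submodule.add_mem _ (hN.mem l) ?_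
      rw [← w2 l]
      exact hN.mem (τ l)
    have ha5 : τ a ≠ k := by
      intro h
      apply ha2
      rw [← h, hD.inv]
    have ha6 : τ a ≠ τ k := by
      intro h
      apply ha1
      rw [← hD.inv a, h, hD.inv]
    set z : Fin K → V n := fun m =>
      (2 * M * Real.exp (t m)) • v m - (if m = a then (x l + x (τ l)) else 0) with hz
    have hz1 : ∀ m, z m ∈ Lf C τ v m := by
      intro m
      refine Submodule.sub_mem _ (Submodule.smul_mem _ _ (v1 m)) ?_
      split_ifs with h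
      · rw [h]; exact hya
      · exact Submodule.zero_mem _
    have hz2 : ∑ m, z m ∈ closure C := by
      have e3 : ∑ m, z m = (2 : ℝ) • (M • xt v t - ∑ i, x i) +
          ((2 : ℝ) • (∑ i, x i) - (x l + x (τ l))) := by
        rw [hz, Finset.sum_sub_distrib, Finset.sum_ite_eq' Finset.univ a, if_pos (Finset.mem_univ a)]
        have e4 : ∑ m, (2 * M * Real.exp (t m)) • v m = (2 * M) • xt v t := by
          unfold xt
          rw [Finset.smul_sum]
          exact Finset.sum_congr rfl fun m _ => by rw [smul_smul]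
        rw [e4]
        module
      rw [e3]
      exact hP.cl_add (hP.cl_smul hN.up (by norm_num)) h2
    have hz3 := v4 z hz1 hz2 a
    have e5 : z a = (2 * M * Real.exp (t a)) • v a - (x l + x (τ l)) := by
      rw [hz]
      simp
    have e6 : z (τ a) = (2 * M * Real.exp (t (τ a))) • v (τ a) := by
      rw [hz]
      simp [ha3]
    rw [e5, e6] at hz3
    rw [← Finset.add_sum_erase S _ (hmS a ha1 ha2), ← Finset.add_sum_erase (S.erase a) _
      (Finset.mem_erase.2 ⟨ha3, hmS (τ a) ha5 ha6⟩)]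
    have e7 : (2 * M * (1 + ∑ i, r i)) • (Real.exp (t a) • v a + (Real.exp (t (τ a)) • v (τ a) +
        ∑ m ∈ (S.erase a).erase (τ a), Real.exp (t m) • v m)) - (x l + x (τ l)) =
        ((2 * M * Real.exp (t a)) • v a - (x l + x (τ l)) +
          (2 * M * Real.exp (t (τ a))) • v (τ a)) +
        ((2 * M * (∑ i, r i) * Real.exp (t a)) • v a +
          (2 * M * (∑ i, r i) * Real.exp (t (τ a))) • v (τ a) +
          (2 * M * (1 + ∑ i, r i)) •
            ∑ m ∈ (S.erase a).erase (τ a), Real.exp (t m) • v m) := by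
      module
    rw [e7]
    refine hP.cl_add hz3 (hP.cl_add (hP.cl_add (hP.cl_smul (hcl a) (by positivity))
      (hP.cl_smul (hcl (τ a)) (by positivity))) (hP.cl_smul (hSc _) hR0))

end Pool.Agent.NTW.H63
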