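import Pool.Agent.NTW.StmtsA

/-!
# NTW squad, row ALW: all vertices in the box
-/

set_option autoImplicit false

open Matrix Filter Topology

namespace Pool.Agent.NTW.H63

open Pool.Agent.PFS Pool.Agent.PFJ Pool.Agent.NTS

theorem ind2_of_lin {n K : ℕ} {v : Fin K → V n} (h : LinearIndependent ℝ v) {a b : Fin K}
    (hab : a ≠ b) : Ind2 (v a) (v b) := by
  have h1 : LinearIndependent ℝ ![v a, v b] := by
    have h2 := h.comp ![a, b] (by
      intro x y hxy
      fin_cases x <;> fin_cases y
      · rfl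
      · exact absurd hxy hab
      · exact absurd hxy.symm hab
      · rfl)
    have h3 : (v ∘ ![a, b]) = ![v a, v b] := by
      funext i
      fin_cases i <;> rfl
    rw [h3] at h2
    exact h2
  exact LinearIndependent.pair_iff.1 h1

/-- ALW -/
theorem alw (dcp : DcpStmt) (eiw : EiwStmt) (twp : TwpStmt) (chw : ChwStmt) (cn2 : Cn2Stmt) :
    AlwStmt := by
  intro n C Γ K c τ hD v w hv hw hin
  obtain ⟨-, d2, -, -, -, -, -⟩ := dcp n C Γ K c τ hD w hw
  obtain ⟨e1, -, -, e4⟩ := eiw n C Γ K c τ hD w hw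
  obtain ⟨-, -, f3, -⟩ := eiw n C Γ K c τ hD v hv
  have hli := Pool.Agent.PFS.H60.lin n C hD.toPCone (Fin K) v hv.pes.1
  have hf0 : ∀ a, ∃ i, v a ∈ Lf C τ w i := fun a =>
    e1 (v a) (hin a) (f3 a).2.1 (f3 a).2.2 (f3 a).1
  choose f hf using hf0
  have hfa : ∀ a b, (f b = f a ∨ f b = τ (f a)) → v b ∈ Lf C τ w (f a) := by
    intro a b h
    rcases h with h | h
    · rw [← h]; exact hf b
    · rw [← d2 (f a), ← h]; exact hf b
  obtain ⟨π, hπ⟩ := cn2 K τ f hD.inv
    (fun a b hab h => (twp n C Γ K c τ hD v w hv hw (f a) a b hab (hf a) (hfa a b h)).1)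
    (fun a b d hab had hbd h1 h2 => by
      rcases (twp n C Γ K c τ hD v w hv hw (f a) a b hab (hf a) (hfa a b h1)).2.2.2 d
        (hfa a d h2) with h | h
      · exact had h.symm
      · exact hbd h.symm)
  have hπ' : ∀ i, v (π i) ∈ Lf C τ w i := by
    intro i
    rcases hπ i with h | h
    · have h1 := hf (π i)
      rw [h] at h1
      exact h1
    · have h1 := hf (π i)
      rw [h, d2] at h1
      exact h1
  obtain ⟨hT', hL', -⟩ := chw n C Γ K c τ hD w hw (fun i => v (π i))
    (fun i => ⟨hπ' i, (f3 (π i)).2.1, (f3 (π i)).2.2⟩)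
    (fun i hi => ⟨ind2_of_lin hli (fun h => hi (π.injective h).symm),
      (e4 i hi (v (π i)) (hπ' i) (f3 (π i)).2.1).1 (f3 (π i)).1⟩)
  have hA : ∀ i j, i ≠ j → c (π i) (π j) = c i j := by
    intro i j hij
    have h1 := hD.dim v hv (π i) (π j) (fun h => hij (π.injective h))
    have h2 := hD.dim _ hT' i j hij
    exact h1.symm.trans h2
  have hne : ∀ {i j : Fin K}, i ≠ j → π i ≠ π j := fun hij h => hij (π.injective h)
  have hB : ∀ i, τ (π i) = π (τ i) := by
    intro i
    by_cases hi : τ i = i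
    · rw [hi]
      by_contra hcon
      obtain ⟨m, hm⟩ := π.surjective (τ (π i))
      have hmi : i ≠ m := by
        intro h
        rw [← h] at hm
        exact hcon hm.symm
      have h3 : 3 ≤ c i m := by
        rw [← hA i m hmi, hm]
        exact hD.pair (π i) hcon
      have hcon2 : τ (τ (π i)) ≠ τ (π i) := by
        rw [hD.inv]
        exact fun h => hcon h.symm
      obtain ⟨l, hl1, hl2, h4 | h4⟩ := hD.sgl i m hmi hi h3
      · have h5 := hD.leaf (π i) hcon (π l) (hne hl1) (by rw [← hm]; exact hne hl2)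
        rw [hA i l hl1.symm] at h5
        omega
      · have h5 := hD.leaf (τ (π i)) hcon2 (π l) (by rw [← hm]; exact hne hl2)
          (by rw [hD.inv]; exact hne hl1)
        rw [← hm, hA m l hl2.symm] at h5
        omega
    · have h3 := hD.pair i hi
      have hi' : τ (τ i) ≠ τ i := by
        rw [hD.inv]
        exact fun h => hi h.symm
      have hii : i ≠ τ i := fun h => hi h.symm
      have h1 : τ (π i) ≠ π i := by
        intro hcon
        obtain ⟨l, hl1, hl2, h4⟩ := hD.sgl (π i) (π (τ i)) (hne hii) hcon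
          (by rw [hA i (τ i) hii]; exact h3)
        obtain ⟨m, rfl⟩ := π.surjective l
        have hm1 : m ≠ i := fun h => hl1 (by rw [h])
        have hm2 : m ≠ τ i := fun h => hl2 (by rw [h])
        rcases h4 with h4 | h4
        · rw [hA i m hm1.symm] at h4
          have h5 := hD.leaf i hi m hm1 hm2
          omega
        · rw [hA (τ i) m hm2.symm] at h4
          have h5 := hD.leaf (τ i) hi' m hm2 (by rw [hD.inv]; exact hm1)
          omega
      by_contra hcon
      have h5 := hD.leaf (π i) h1 (π (τ i)) (hne hi) (fun h => hcon h.symm)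
      rw [hA i (τ i) hii] at h5
      omega
  have hC : ∀ i, Lf C τ v (π i) = Lf C τ w i := by
    intro i
    rw [← hL' i]
    unfold Lf
    by_cases hi : τ i = i
    · rw [if_pos hi, if_pos (by rw [hB, hi])]
    · rw [if_neg hi, if_neg (by rw [hB]; exact hne hi), hB]
  refine ⟨?_, π, hB, hC⟩
  unfold Ws
  rw [← Equiv.iSup_comp π]
  exact iSup_congr hC

end Pool.Agent.NTW.H63
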